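import Pool.Agent.Helper67.DO.StmtsE1

/-!
# E4: `a ∧` maps `O_q(U)` to `O_{q+1}(U)`
-/

namespace Pool.Agent.Helper67.DO

open scoped BigOperators Real

noncomputable section

theorem e4_perm (q : ℕ) (σ : Equiv.Perm (Fin (q + 1))) (i : Fin (q + 1)) :
    ∃ τ : Equiv.Perm (Fin q), (∀ j, σ (i.succAbove j) = (σ i).succAbove (τ j)) ∧
      Equiv.Perm.sign τ = (-1) ^ ((σ i : Fin (q + 1)) : ℕ) * Equiv.Perm.sign σ * (-1) ^ (i : ℕ) := by
  set σ' : Equiv.Perm (Fin (q + 1)) := (σ i).cycleRange * σ * (i.cycleRange)⁻¹ with hσ'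
  have h0 : σ' 0 = 0 := by
    have e : (i.cycleRange)⁻¹ 0 = i := by
      rw [Equiv.Perm.inv_eq_iff_eq]
      exact (Fin.cycleRange_self i).symm
    show (σ i).cycleRange (σ ((i.cycleRange)⁻¹ 0)) = 0
    rw [e]
    exact Fin.cycleRange_self (σ i)
  obtain ⟨⟨p, τ⟩, hp⟩ := Equiv.Perm.decomposeFin.symm.surjective σ'
  have hp0 : p = 0 := by
    have := Equiv.Perm.decomposeFin_symm_apply_zero p τ
    rw [hp, h0] at this
    exact this.symm
  subst hp0
  have hs : ∀ j : Fin q, σ' j.succ = (τ j).succ := by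
    intro j
    rw [← hp, Equiv.Perm.decomposeFin_symm_apply_succ]
    simp
  refine ⟨τ, ?_, ?_⟩
  · intro j
    have e1 : (i.cycleRange)⁻¹ j.succ = i.succAbove j := by
      rw [Equiv.Perm.inv_eq_iff_eq]
      exact (Fin.cycleRange_succAbove i j).symm
    have h1 := hs j
    have h2 : (σ i).cycleRange (σ (i.succAbove j)) = (τ j).succ := by
      rw [← e1]
      exact h1
    have h3 : (σ i).cycleRange ((σ i).succAbove (τ j)) = (τ j).succ := Fin.cycleRange_succAbove (σ i) (τ j)
    exact (σ i).cycleRange.injective (h2.trans h3.symm)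
  · have h4 : Equiv.Perm.sign σ' = Equiv.Perm.sign τ := by
      rw [← hp, Equiv.Perm.decomposeFin.symm_sign]
      simp
    rw [← h4, hσ', Equiv.Perm.sign_mul, Equiv.Perm.sign_mul, Equiv.Perm.sign_inv, Fin.sign_cycleRange,
      Fin.sign_cycleRange]

theorem e4_removeNth_mem {q : ℕ} {U : Set ℂ} {z : Fin (q + 1) → ℂ} (hz : z ∈ PU (q + 1) U) (i : Fin (q + 1)) :
    i.removeNth z ∈ PU q U := fun j => hz (i.succAbove j)

theorem e4_removeNth_update_self {q : ℕ} (z : Fin (q + 1) → ℂ) (i : Fin (q + 1)) (t : ℂ) :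
    i.removeNth (Function.update z i t) = i.removeNth z := by
  funext j
  show Function.update z i t (i.succAbove j) = z (i.succAbove j)
  rw [Function.update_of_ne (Fin.succAbove_ne i j)]

theorem e4_removeNth_update {q : ℕ} (z : Fin (q + 1) → ℂ) (k : Fin (q + 1)) (j : Fin q) (t : ℂ) :
    k.removeNth (Function.update z (k.succAbove j) t) = Function.update (k.removeNth z) j t := by
  funext l
  show Function.update z (k.succAbove j) t (k.succAbove l) = Function.update (k.removeNth z) j t l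
  by_cases h : l = j
  · subst h
    rw [Function.update_self, Function.update_self]
  · rw [Function.update_of_ne (fun h' => h (Fin.succAbove_right_injective h')), Function.update_of_ne h]
    rfl

theorem e4_norm {q : ℕ} {U : Set ℂ} {a : ℂ → ℂ} {A : ℝ} (hA : ∀ z ∈ U, ‖a z‖ ≤ A)
    {F : (Fin q → ℂ) → ℂ} {M : ℝ} (hM : ∀ z ∈ PU q U, ‖F z‖ ≤ M) {z : Fin (q + 1) → ℂ}
    (hz : z ∈ PU (q + 1) U) : ‖wd a q F z‖ ≤ (q + 1) * A * M := by
  unfold wd
  have h1 : ∀ i ∈ (Finset.univ : Finset (Fin (q + 1))), ‖(-1 : ℂ) ^ (i : ℕ) * a (z i) * F (i.removeNth z)‖ ≤ A * M := by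
    intro i _
    rw [norm_mul, norm_mul, norm_pow, norm_neg, norm_one, one_pow, one_mul]
    have h2 := hA _ (hz i)
    have h3 := hM _ (e4_removeNth_mem hz i)
    exact mul_le_mul h2 h3 (norm_nonneg _) ((norm_nonneg _).trans h2)
  refine (norm_sum_le_of_le _ h1).trans ?_
  rw [Finset.sum_const, Finset.card_univ, Fintype.card_fin, nsmul_eq_mul]
  push_cast
  exact le_of_eq (by ring)

theorem st_E4 : ST_E4 := by
  intro q U a A hU hper ha hap hA F hF
  refine ⟨?_, fun M hM z hz => e4_norm hA hM hz⟩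
  refine ⟨?_, ?_, ?_, ?_⟩
  · have e : wd a q F = fun z => ∑ i : Fin (q + 1), ((-1 : ℂ) ^ (i : ℕ) * a (z i)) * F (i.removeNth z) := rfl
    rw [e]
    refine DifferentiableOn.fun_sum fun i _ => ?_
    refine DifferentiableOn.mul ?_ ?_
    · refine DifferentiableOn.const_mul ?_ _
      exact ha.comp (f := fun z : Fin (q + 1) → ℂ => z i) (differentiable_apply i).differentiableOn fun z hz => hz i
    · refine hF.hol.comp (f := fun z : Fin (q + 1) → ℂ => i.removeNth z) ?_ fun z hz => e4_removeNth_mem hz i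
      have hd : Differentiable ℂ fun z : Fin (q + 1) → ℂ => i.removeNth z := by
        rw [differentiable_pi]
        intro j
        exact differentiable_apply (i.succAbove j)
      exact hd.differentiableOn
  · intro z hz i
    unfold wd
    refine Finset.sum_congr rfl fun k _ => ?_
    by_cases hk : k = i
    · subst hk
      rw [Function.update_self, hap _ (hz k), e4_removeNth_update_self]
    · rw [Function.update_of_ne hk]
      obtain ⟨j, hj⟩ := Fin.exists_succAbove_eq (Ne.symm hk)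
      subst hj
      rw [e4_removeNth_update]
      have := hF.per _ (e4_removeNth_mem hz k) j
      have e : (k.removeNth z) j = z (k.succAbove j) := rfl
      rw [e] at this
      rw [this]
  · intro z hz σ
    unfold wd
    have key : ∀ i : Fin (q + 1), (-1 : ℂ) ^ (i : ℕ) * a (z (σ i)) * F (i.removeNth fun l => z (σ l))
        = ((Equiv.Perm.sign σ : ℤ) : ℂ) * ((-1 : ℂ) ^ ((σ i : Fin (q + 1)) : ℕ) * a (z (σ i)) * F ((σ i).removeNth z)) := by
      intro i
      obtain ⟨τ, h1, h2⟩ := e4_perm q σ i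
      have e : (i.removeNth fun l => z (σ l)) = fun j => ((σ i).removeNth z) (τ j) := by
        funext j
        show z (σ (i.succAbove j)) = z ((σ i).succAbove (τ j))
        rw [h1]
      rw [e, hF.alt _ (e4_removeNth_mem hz (σ i)) τ, h2]
      push_cast
      have h3 : (-1 : ℂ) ^ (i : ℕ) * (-1 : ℂ) ^ (i : ℕ) = 1 := by
        rw [← mul_pow]
        simp
      linear_combination (a (z (σ i)) * (-1 : ℂ) ^ ((σ i : Fin (q + 1)) : ℕ) * ((Equiv.Perm.sign σ : ℤ) : ℂ)
        * F ((σ i).removeNth z)) * h3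
    rw [Finset.sum_congr rfl fun i _ => key i, ← Finset.mul_sum]
    congr 1
    exact Equiv.sum_comp σ (fun i => (-1 : ℂ) ^ ((i : Fin (q + 1)) : ℕ) * a (z i) * F (i.removeNth z))
  · obtain ⟨C, hC⟩ := hF.bdd
    exact ⟨(q + 1) * A * C, fun z hz => e4_norm hA hC hz⟩

end

end Pool.Agent.Helper67.DO
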