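import Pool.Agent.Helper67.DO.BaseE
import Pool.Agent.Helper26.DO.Lib

/-!
# X8: base case of the dimension bound: one rectangle
-/

namespace Pool.Agent.Helper67.DO

open scoped BigOperators Real

noncomputable section

/-! ### the shape of one interval -/

theorem x8_RR_InR {b0 e0 w h : ℝ} (hw : 0 ≤ w) {z : ℂ} (hz : z ∈ RR b0 e0 w h) : InR b0 e0 z := by
  obtain ⟨_, k, h1, h2⟩ := hz
  exact ⟨k, by linarith, by linarith⟩

theorem x8_US {N : ℕ} (hN : 0 < N) {b e : ℤ} (hbe : b < e) (heb : e ≤ b + N) {w h : ℝ} (hw : 0 < w) :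
    US N (PI N b e ∅) (GI N b e) w h = RR ((b : ℝ) / N) ((e : ℝ) / N) w h := by
  have hN' : (0 : ℝ) < N := Nat.cast_pos.2 hN
  ext z
  constructor
  · rintro ⟨h1, h2, h3⟩
    refine ⟨h1, ⌊z.re - (b : ℝ) / N⌋, ?_⟩
    set k : ℤ := ⌊z.re - (b : ℝ) / N⌋ with hk
    have a1 : (k : ℝ) ≤ z.re - (b : ℝ) / N := Int.floor_le _
    have a2 : z.re - (b : ℝ) / N < k + 1 := Int.lt_floor_add_one _
    -- the point b
    have b1 : b + k * N ∈ PI N b e ∅ := by
      refine ⟨k - 1, Or.inl ⟨?_, ?_⟩⟩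
      · have : b + k * N - (k - 1) * (N : ℤ) = b + N := by ring
        rw [this]
        exact heb
      · have : b + k * N - (k - 1) * (N : ℤ) = b + N := by ring
        rw [this]
    have c1 := h2 _ b1
    have e1 : (((b + k * N : ℤ)) : ℝ) / N = (b : ℝ) / N + k := by
      push_cast
      field_simp
    rw [e1] at c1
    have b2 : e + k * N ∈ PI N b e ∅ := by
      refine ⟨k, Or.inl ⟨?_, ?_⟩⟩
      · rw [add_sub_cancel_right]
      · rw [add_sub_cancel_right]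
        exact heb
    have c2 := h2 _ b2
    have e2 : (((e + k * N : ℤ)) : ℝ) / N = (e : ℝ) / N + k := by
      push_cast
      field_simp
    rw [e2] at c2
    have d1 : (b : ℝ) / N + w < z.re - k := by
      rcases lt_abs.1 c1 with h | h
      · linarith
      · linarith
    refine ⟨d1, ?_⟩
    by_contra hcon
    have d2 : (e : ℝ) / N ≤ z.re - k := by
      rcases lt_abs.1 c2 with h | h
      · linarith
      · exfalso
        exact hcon (by linarith)
    -- z.re - k in [e/N, b/N+1)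
    set j : ℤ := ⌊(z.re - k) * N⌋ with hj
    have f1 : (j : ℝ) ≤ (z.re - k) * N := Int.floor_le _
    have f2 : (z.re - k) * N < j + 1 := Int.lt_floor_add_one _
    have g1 : e ≤ j := by
      rw [hj]
      apply Int.le_floor.2
      rwa [div_le_iff₀ hN'] at d2
    have g2 : j < b + N := by
      have : (j : ℝ) < b + N := by
        calc (j : ℝ) ≤ (z.re - k) * N := f1
          _ < ((b : ℝ) / N + 1) * N := mul_lt_mul_of_pos_right (by linarith) hN'
          _ = b + N := by field_simp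
      exact_mod_cast this
    have hG : j + k * N ∈ GI N b e := by
      refine ⟨k, ?_, ?_⟩
      · rw [add_sub_cancel_right]
        exact g1
      · rw [add_sub_cancel_right]
        exact g2
    have e3 : (((j + k * N : ℤ)) : ℝ) / N = (j : ℝ) / N + k := by
      push_cast
      field_simp
    have e4 : ((((j + k * N : ℤ)) : ℝ) + 1) / N = ((j : ℝ) + 1) / N + k := by
      push_cast
      field_simp
      ring
    rcases h3 _ hG with h | h
    · rw [e3] at h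
      have : (j : ℝ) / N ≤ z.re - k := by rwa [div_le_iff₀ hN']
      linarith
    · rw [e4] at h
      have : z.re - k < ((j : ℝ) + 1) / N := by rwa [lt_div_iff₀ hN']
      linarith
  · rintro ⟨h1, k, h2, h3⟩
    have key : ∀ i t : ℤ, e ≤ i - t * N → i - t * N ≤ b + N →
        ((e : ℝ) / N + k ≤ (i : ℝ) / N) ∨ ((i : ℝ) / N ≤ (b : ℝ) / N + k) := by
      intro i t hi1 hi2
      rcases le_or_gt k t with hkt | hkt
      · left
        have r1 : (e : ℝ) ≤ i - t * N := by exact_mod_cast hi1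
        have r2 : (k : ℝ) ≤ t := by exact_mod_cast hkt
        have r3 : (k : ℝ) * N ≤ t * N := mul_le_mul_of_nonneg_right r2 hN'.le
        rw [div_add' _ _ _ hN'.ne', div_le_div_iff_of_pos_right hN']
        linarith
      · right
        have r1 : ((i : ℝ) - t * N) ≤ b + N := by exact_mod_cast hi2
        have r2 : (t : ℝ) + 1 ≤ k := by exact_mod_cast hkt
        have r3 : ((t : ℝ) + 1) * N ≤ k * N := mul_le_mul_of_nonneg_right r2 hN'.le
        rw [div_add' _ _ _ hN'.ne', div_le_div_iff_of_pos_right hN']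
        linarith
    refine ⟨h1, ?_, ?_⟩
    · rintro i ⟨t, ht | ht⟩
      · rcases key i t ht.1 ht.2 with h | h
        · rw [lt_abs]
          right
          linarith
        · rw [lt_abs]
          left
          linarith
      · exact absurd ht (Set.notMem_empty _)
    · rintro i ⟨t, ht1, ht2⟩
      have hlt : (i : ℝ) / N < ((i : ℝ) + 1) / N := (div_lt_div_iff_of_pos_right hN').2 (by linarith)
      have k2 := key (i + 1) t (by linarith) (by linarith [Int.add_one_le_of_lt ht2])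
      push_cast at k2
      rcases key i t ht1 ht2.le with h | h
      · left
        linarith
      · rcases k2 with h' | h'
        · -- i/N ≤ b/N + k and (i+1)/N ≥ e/N + k: impossible since the interval has length one grid step inside
          exfalso
          have r1 : ((i : ℝ)) ≤ b + k * N := by
            have : (i : ℝ) / N ≤ ((b : ℝ) + k * N) / N := by
              rw [add_div, mul_div_assoc, div_self hN'.ne', mul_one]
              exact h
            rwa [div_le_div_iff_of_pos_right hN'] at this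
          have r2 : ((e : ℝ) + k * N) ≤ i + 1 := by
            have : ((e : ℝ) + k * N) / N ≤ ((i : ℝ) + 1) / N := by
              rw [add_div, mul_div_assoc, div_self hN'.ne', mul_one]
              exact h'
            rwa [div_le_div_iff_of_pos_right hN'] at this
          have r1' : i ≤ b + k * N := by exact_mod_cast r1
          have r2' : e + k * N ≤ i + 1 := by exact_mod_cast r2
          -- then e = b + 1 and i = b + kN
          have hi : i = b + k * N := by linarith [Int.add_one_le_of_lt hbe]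
          rw [hi] at ht1 ht2
          have t1 : e - b ≤ (k - t) * N := by linarith
          have t2 : (k - t) * N < N := by linarith
          have t3 : 0 < (k - t) * (N : ℤ) := by linarith
          have hNz : (0 : ℤ) < N := by exact_mod_cast hN
          have t4 : 0 < k - t := by
            by_contra hc
            have := mul_nonpos_of_nonpos_of_nonneg (not_lt.1 hc) hNz.le
            linarith
          have t5 : (1 : ℤ) * N ≤ (k - t) * N := mul_le_mul_of_nonneg_right t4 hNz.le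
          linarith
        · right
          linarith

theorem x8_cond {N : ℕ} (hN : 0 < N) {b e : ℤ} (hbe : b < e) (heb : e ≤ b + N) {w : ℝ} (hw1 : w < 1 / (4 * N)) :
    (b : ℝ) / N + w < yy N b ∧ yy N b < (e : ℝ) / N - w ∧ (e : ℝ) / N ≤ (b : ℝ) / N + 1 ∧
      (b : ℝ) / N < yy N b ∧ yy N b < (e : ℝ) / N := by
  have hN' : (0 : ℝ) < N := Nat.cast_pos.2 hN
  have hu : (0 : ℝ) < 1 / N := by positivity
  have e1 : (b : ℝ) / N = b * (1 / N) := by ring
  have e2 : (e : ℝ) / N = e * (1 / N) := by ring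
  have e3 : yy N b = b * (1 / N) + (1 / 2) * (1 / N) := by
    unfold yy
    ring
  have e4 : (1 : ℝ) / (4 * N) = (1 / 4) * (1 / N) := by
    field_simp
  have e5 : (1 : ℝ) = N * (1 / N) := by field_simp
  rw [e4] at hw1
  have r1 : (b : ℝ) + 1 ≤ e := by exact_mod_cast hbe
  have r2 : ((b : ℝ) + 1) * (1 / N) ≤ e * (1 / N) := mul_le_mul_of_nonneg_right r1 hu.le
  have r3 : (e : ℝ) ≤ b + N := by exact_mod_cast heb
  have r4 : (e : ℝ) * (1 / N) ≤ (b + N) * (1 / N) := mul_le_mul_of_nonneg_right r3 hu.le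
  rw [e1, e2, e3]
  refine ⟨by linarith, by nlinarith, by nlinarith, by nlinarith, by nlinarith⟩

/-! ### algebra of the projection -/

theorem x8_wd_zero {U : Set ℂ} (a : ℂ → ℂ) (n : ℕ) (f : (Fin n → ℂ) → ℂ) (hf : ∀ z ∈ PU n U, f z = 0) :
    ∀ z ∈ PU (n + 1) U, wd a n f z = 0 := by
  intro z hz
  unfold wd
  refine Finset.sum_eq_zero fun i _ => ?_
  have h1 : f (i.removeNth z) = 0 := hf _ fun j => hz (i.succAbove j)
  rw [h1, mul_zero]

theorem x8_wd_smul (a : ℂ → ℂ) (n : ℕ) (c : ℂ) (f : (Fin n → ℂ) → ℂ) :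
    wd a n (fun z => c * f z) = fun z => c * wd a n f z := by
  funext z
  unfold wd
  rw [Finset.mul_sum]
  exact Finset.sum_congr rfl fun i _ => by ring

theorem x8_ext0 {b0 e0 : ℝ} {U : Set ℂ} (hU : ∀ z ∈ U, InR b0 e0 z) (n : ℕ) (F : (Fin (n + 1) → ℂ) → ℂ) :
    ∀ z ∈ PU (n + 1) U, ext0 b0 e0 F z = 0 := by
  intro z hz
  unfold ext0
  rw [if_neg]
  intro h
  exact h 0 (hU _ (hz 0))

theorem x8_uw_zero {b0 e0 : ℝ} (y : ℝ) {U : Set ℂ} (hU : ∀ z ∈ U, InR b0 e0 z) (n : ℕ) (G : (Fin (n + 1) → ℂ) → ℂ) :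
    ∀ z ∈ PU (n + 4) U, uw b0 e0 y (n + 1) G z = 0 :=
  x8_wd_zero _ _ _ (x8_wd_zero _ _ _ (x8_wd_zero _ _ _ (x8_ext0 hU n G)))

theorem x8_uw_const (b0 e0 y : ℝ) (G : (Fin 0 → ℂ) → ℂ) (z : Fin 3 → ℂ) :
    uw b0 e0 y 0 G z = G (fun i => i.elim0) * uw b0 e0 y 0 (fun _ => 1) z := by
  have h1 : ext0 b0 e0 G = fun v => G (fun i => i.elim0) * ext0 b0 e0 (fun _ => 1) v := by
    funext v
    unfold ext0
    rw [if_pos (fun j => j.elim0), if_pos (fun j => j.elim0), mul_one]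
    congr 1
    exact Subsingleton.elim _ _
  unfold uw
  rw [h1, x8_wd_smul, x8_wd_smul, x8_wd_smul]

theorem x8_Pi_zero {b0 e0 : ℝ} (y : ℝ) {U : Set ℂ} (hU : ∀ z ∈ U, InR b0 e0 z) (q : ℕ) (hq : q + 1 ≠ 3)
    (F : (Fin (q + 1) → ℂ) → ℂ) : ∀ z ∈ PU (q + 1) U, PiE b0 e0 y (q + 1) F z = 0 := by
  match q, hq, F with
  | 0, _, F => exact x8_ext0 hU 0 F
  | 1, _, F => exact x8_ext0 hU 1 F
  | 2, h, _ => exact absurd rfl h
  | (n + 3), _, F =>
    intro z hz
    show ext0 b0 e0 F z + uw b0 e0 y (n + 1) (c3 y (n + 1) F) z = 0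
    rw [x8_ext0 hU (n + 3) F z hz, x8_uw_zero y hU n _ z hz, add_zero]

theorem x8_Pi_three {b0 e0 : ℝ} (y : ℝ) {U : Set ℂ} (hU : ∀ z ∈ U, InR b0 e0 z)
    (F : (Fin 3 → ℂ) → ℂ) : ∀ z ∈ PU 3 U, PiE b0 e0 y 3 F z =
      c3 y 0 F (fun i => i.elim0) * uw b0 e0 y 0 (fun _ => 1) z := by
  intro z hz
  show ext0 b0 e0 F z + uw b0 e0 y 0 (c3 y 0 F) z = _
  rw [x8_ext0 hU 2 F z hz, x8_uw_const, zero_add]

/-! ### linearity of `c3` -/

theorem x8_pds_lin {n : ℕ} (l : List (Fin n)) (c : ℂ) {F G : (Fin n → ℂ) → ℂ} {U : Set ℂ} (hU : IsOpen U)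
    (hF : DifferentiableOn ℂ F (PU n U)) (hG : DifferentiableOn ℂ G (PU n U)) :
    ∀ z ∈ PU n U, lib_pds l (fun x => c * F x + G x) z = c * lib_pds l F z + lib_pds l G z := by
  induction l with
  | nil => exact fun z _ => rfl
  | cons i l ih =>
    intro z hz
    rw [lib_pds_cons, lib_pds_cons, lib_pds_cons, lib_pd_congr i hU ih hz]
    have h1 : DifferentiableAt ℂ (lib_pds l F) (Function.update z i (z i)) := by
      rw [Function.update_eq_self]
      exact (lib_pds_hol l hU hF z hz).differentiableAt ((lib_isOpen_PU n hU).mem_nhds hz)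
    have h2 : DifferentiableAt ℂ (lib_pds l G) (Function.update z i (z i)) := by
      rw [Function.update_eq_self]
      exact (lib_pds_hol l hU hG z hz).differentiableAt ((lib_isOpen_PU n hU).mem_nhds hz)
    have k1 : DifferentiableAt ℂ (fun t => lib_pds l F (Function.update z i t)) (z i) :=
      h1.comp (z i) (hasDerivAt_update z i (z i)).differentiableAt
    have k2 : DifferentiableAt ℂ (fun t => lib_pds l G (Function.update z i t)) (z i) :=
      h2.comp (z i) (hasDerivAt_update z i (z i)).differentiableAt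
    unfold lib_pd
    have e := ((k1.hasDerivAt.const_mul c).add k2.hasDerivAt).deriv
    exact e

theorem x8_c3_eq (y : ℝ) (n : ℕ) (F : (Fin (n + 3) → ℂ) → ℂ) (v : Fin n → ℂ) :
    c3 y n F v = (1 / 2) * lib_pds [Fin.succ 0, Fin.succ (Fin.succ 0), Fin.succ (Fin.succ 0)] F
      (Fin.cons (y : ℂ) (Fin.cons (y : ℂ) (Fin.cons (y : ℂ) v : Fin (n + 1) → ℂ) : Fin (n + 2) → ℂ)) := by
  unfold c3
  simp only [lib_pds_cons, lib_pds_nil, lib_pd_succ_cons, lib_pd_zero_cons, lib_iter2]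

theorem x8_c3_lin (y : ℝ) {U : Set ℂ} (hU : IsOpen U) (hy : (y : ℂ) ∈ U) (c : ℂ) {F G : (Fin 3 → ℂ) → ℂ}
    (hF : DifferentiableOn ℂ F (PU 3 U)) (hG : DifferentiableOn ℂ G (PU 3 U)) (v : Fin 0 → ℂ) :
    c3 y 0 (fun x => c * F x + G x) v = c * c3 y 0 F v + c3 y 0 G v := by
  rw [x8_c3_eq, x8_c3_eq, x8_c3_eq, x8_pds_lin _ c hU hF hG _
    (lib_cons_PU hy (lib_cons_PU hy (lib_cons_PU hy fun i => i.elim0)))]
  ring

/-! ### degree zero -/

theorem x8_PU0 (U V : Set ℂ) : PU 0 U = PU 0 V := by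
  ext z
  exact ⟨fun _ i => i.elim0, fun _ i => i.elim0⟩

theorem x8_BO0 {U V : Set ℂ} {F : (Fin 0 → ℂ) → ℂ} (h : BO 0 U F) : BO 0 V F := by
  obtain ⟨h1, h2, h3, h4⟩ := h
  rw [x8_PU0 U V] at h1 h2 h3 h4
  exact ⟨h1, h2, h3, h4⟩

theorem x8_BO0_const (U : Set ℂ) : BO 0 U (fun _ => 1) where
  hol := differentiableOn_const 1
  per _ _ _ := rfl
  alt z _ σ := by
    have : σ = 1 := Subsingleton.elim _ _
    subst this
    simp
  bdd := ⟨1, fun _ _ => by simp⟩

theorem x8_Fnl0 {U V : Set ℂ} {α : ((Fin 0 → ℂ) → ℂ) → ℂ} (h : Fnl 0 U α) : Fnl 0 V α where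
  add F G hF hG := h.add F G (x8_BO0 hF) (x8_BO0 hG)
  smul c F hF := h.smul c F (x8_BO0 hF)
  bdd := by
    obtain ⟨C, hC, H⟩ := h.bdd
    exact ⟨C, hC, fun F hF M hM hM0 => H F (x8_BO0 hF) M (by rw [x8_PU0 U V]; exact hM) hM0⟩

theorem x8_val0 {U : Set ℂ} {α : ((Fin 0 → ℂ) → ℂ) → ℂ} (h : Fnl 0 U α) (F : (Fin 0 → ℂ) → ℂ) :
    α F = F (fun i => i.elim0) * α (fun _ => 1) := by
  rw [← h.smul _ _ (x8_BO0_const U)]
  congr 1
  funext z
  rw [mul_one]
  congr 1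
  exact Subsingleton.elim _ _

theorem x8_dd0 (F : (Fin 1 → ℂ) → ℂ) : dd 0 F = fun _ => 0 := by
  funext z
  unfold dd
  simp

theorem x8_lin (A A' : ℂ) : ∃ c c' : ℂ, ¬ (c = 0 ∧ c' = 0) ∧ c * A + c' * A' = 0 := by
  by_cases h : A = 0
  · exact ⟨1, 0, fun h' => one_ne_zero h'.1, by rw [h]; ring⟩
  · exact ⟨A', -A, fun h' => h (neg_eq_zero.1 h'.2), by ring⟩

theorem x8_SumX0 {N q : ℕ} {P G : Set ℤ} {w h : ℝ} {α : ((Fin q → ℂ) → ℂ) → ℂ} :
    SumX N 0 q P G w h α ↔ ∀ w1 h1 : ℝ, 0 < w1 → w1 < w → h < h1 → ∀ F, BO q (US N P G w1 h1) F → α F = 0 := by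
  constructor
  · rintro ⟨β, _, h2⟩ w1 h1 a b c F hF
    rw [h2 w1 h1 a b c F hF]
    simp
  · intro H
    exact ⟨fun _ _ => 0, fun _ _ => Fnl.zeroF _ _, fun w1 h1 a b c F hF => by rw [H w1 h1 a b c F hF]; simp⟩

/-! ### the decomposition of cocycles on one rectangle -/

theorem x8_dec (h1 : ST_E1) (hX1 : ST_X1) (hX2 : ST_X2) {N : ℕ} (hN : 0 < N) {b e : ℤ} (hbe : b < e)
    (heb : e ≤ b + N) (q : ℕ) {w h : ℝ} (hw : 0 < w) (hw1 : w < 1 / (4 * N)) (hh : 0 < h)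
    {α : ((Fin (q + 1) → ℂ) → ℂ) → ℂ} (hα : Fnl (q + 1) (US N (PI N b e ∅) (GI N b e) w h) α)
    (hc : CocX N 0 (q + 1) (PI N b e ∅) (GI N b e) w h α) :
    ∃ γ, Fnl q (US N (PI N b e ∅) (GI N b e) w h) γ ∧ ∀ w1 k1 : ℝ, 0 < w1 → w1 < w → h < k1 →
      ∀ F, BO (q + 1) (US N (PI N b e ∅) (GI N b e) w1 k1) F →
        α F = γ (dd q F) + α (PiE ((b : ℝ) / N) ((e : ℝ) / N) (yy N b) (q + 1) F) := by
  have hs := Shape_PI N b e ∅
  obtain ⟨_, _, c3', c4, c5⟩ := x8_cond hN hbe heb hw1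
  obtain ⟨hop, H⟩ := hX1 ((b : ℝ) / N) (yy N b) ((e : ℝ) / N) c4 c5 c3'
  have HX : ∀ w1 k1 : ℝ, 0 < w1 → w1 ≤ w → 0 < k1 →
      (∀ q F, BO q (US N (PI N b e ∅) (GI N b e) w1 k1) F → BO (q + 1) (US N (PI N b e ∅) (GI N b e) w1 k1) (hop q F)) ∧
      (∃ C : ℕ → ℝ, ∀ q F, BO q (US N (PI N b e ∅) (GI N b e) w1 k1) F → ∀ B : ℝ,
        (∀ z ∈ PU q (US N (PI N b e ∅) (GI N b e) w1 k1), ‖F z‖ ≤ B) →
        ∀ z ∈ PU (q + 1) (US N (PI N b e ∅) (GI N b e) w1 k1), ‖hop q F z‖ ≤ C q * B) ∧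
      (∀ q F G (c : ℂ), BO q (US N (PI N b e ∅) (GI N b e) w1 k1) F → BO q (US N (PI N b e ∅) (GI N b e) w1 k1) G →
        ∀ z ∈ PU (q + 1) (US N (PI N b e ∅) (GI N b e) w1 k1),
          hop q (fun x => c * F x + G x) z = c * hop q F z + hop q G z) ∧
      (∀ q F, BO (q + 1) (US N (PI N b e ∅) (GI N b e) w1 k1) F → ∀ z ∈ PU (q + 1) (US N (PI N b e ∅) (GI N b e) w1 k1),
        dd (q + 1) (hop (q + 1) F) z + hop q (dd q F) z = F z - PiE ((b : ℝ) / N) ((e : ℝ) / N) (yy N b) (q + 1) F z) := by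
    intro w1 k1 a1 a2 a3
    obtain ⟨d1, d2, _, _, _⟩ := x8_cond hN hbe heb (a2.trans_lt hw1)
    have K := H w1 k1 a1.le a3 d1 d2 ∅ isOpen_empty (fun z => Iff.rfl) (fun z hz => absurd hz (Set.notMem_empty z))
    rw [Set.empty_union] at K
    rw [x8_US hN hbe heb a1]
    exact K
  obtain ⟨K1, ⟨C, K2⟩, K3, _⟩ := HX w h hw le_rfl hh
  have hγ : Fnl q (US N (PI N b e ∅) (GI N b e) w h) (fun F => α (hop q F)) := by
    refine ⟨fun F G hF hG => ?_, fun c F hF => ?_, ?_⟩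
    · show α (hop q fun z => F z + G z) = α (hop q F) + α (hop q G)
      rw [← hα.add _ _ (K1 q F hF) (K1 q G hG)]
      refine hα.ext' (K1 q _ (hF.add hG)) ((K1 q F hF).add (K1 q G hG)) fun z hz => ?_
      have := K3 q F G 1 hF hG z hz
      simpa using this
    · show α (hop q fun z => c * F z) = c * α (hop q F)
      rw [← hα.smul c _ (K1 q F hF)]
      refine hα.ext' (K1 q _ (hF.smul c)) ((K1 q F hF).smul c) fun z hz => ?_
      have e0 := K3 q (fun _ => 0) (fun _ => 0) 1 (BO.zero q _) (BO.zero q _) z hz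
      have e1 := K3 q F (fun _ => 0) c hF (BO.zero q _) z hz
      simp only [mul_zero, add_zero, one_mul] at e0 e1
      have e2 : hop q (fun _ => 0) z = 0 := by
        have : hop q (fun _ => 0) z + hop q (fun _ => 0) z = hop q (fun _ => 0) z := e0.symm
        simpa using this
      rw [e2, add_zero] at e1
      exact e1
    · obtain ⟨D, hD, HD⟩ := hα.bdd
      refine ⟨D * |C q|, by positivity, fun F hF M hM hM0 => ?_⟩
      have a := K2 q F hF M hM
      have b' := HD _ (K1 q F hF) (|C q| * M) (fun z hz => (a z hz).trans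
        (mul_le_mul_of_nonneg_right (le_abs_self _) hM0)) (by positivity)
      rw [mul_assoc]
      exact b'
  refine ⟨fun F => α (hop q F), hγ, fun w1 k1 a1 a2 a3 F hF => ?_⟩
  obtain ⟨L1, _, _, L4⟩ := HX w1 k1 a1 a2.le (hh.trans a3)
  have hsub : US N (PI N b e ∅) (GI N b e) w h ⊆ US N (PI N b e ∅) (GI N b e) w1 k1 :=
    US_mono le_rfl le_rfl a2.le a3.le
  have hF' := hF.mono hsub
  -- the projection is in BO
  have hPi : BO (q + 1) (US N (PI N b e ∅) (GI N b e) w h)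
      (PiE ((b : ℝ) / N) ((e : ℝ) / N) (yy N b) (q + 1) F) := by
    obtain ⟨d1, d2, _, _, _⟩ := x8_cond hN hbe heb hw1
    have K := (hX2 ((b : ℝ) / N) (yy N b) ((e : ℝ) / N) ((e : ℝ) / N) w h d1 d2 le_rfl c3' hw.le hh ∅ isOpen_empty
      (fun z => Iff.rfl) (fun z hz => absurd hz (Set.notMem_empty z))).1 (q + 1) F
    rw [Set.empty_union, ← x8_US hN hbe heb hw] at K
    exact (K hF').1
  have hhop := L1 (q + 1) F hF
  have hddh : BO (q + 1) (US N (PI N b e ∅) (GI N b e) w h) (dd (q + 1) (hop (q + 1) F)) :=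
    dd_BO h1 hN hs a1.le a2 a3 hhop
  have hddF : BO q (US N (PI N b e ∅) (GI N b e) w h) (dd q F) := dd_BO h1 hN hs a1.le a2 a3 hF
  have hhd : BO (q + 1) (US N (PI N b e ∅) (GI N b e) w h) (hop q (dd q F)) := K1 q _ hddF
  have z0 : α (dd (q + 1) (hop (q + 1) F)) = 0 := (x8_SumX0.1 hc) w1 k1 a1 a2 a3 _ hhop
  have e1 : α F = α (fun z => dd (q + 1) (hop (q + 1) F) z + (hop q (dd q F) z +
      PiE ((b : ℝ) / N) ((e : ℝ) / N) (yy N b) (q + 1) F z)) := by
    refine hα.ext' hF' (hddh.add (hhd.add hPi)) fun z hz => ?_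
    have := L4 q F hF z (PU_mono hsub hz)
    rw [← add_assoc, this]
    ring
  rw [e1, hα.add _ _ hddh (hhd.add hPi), hα.add _ _ hhd hPi, z0, zero_add]

theorem x8_inR {N : ℕ} (hN : 0 < N) {b e : ℤ} (hbe : b < e) (heb : e ≤ b + N) {w h : ℝ} (hw : 0 < w) :
    ∀ z ∈ US N (PI N b e ∅) (GI N b e) w h, InR ((b : ℝ) / N) ((e : ℝ) / N) z := by
  intro z hz
  rw [x8_US hN hbe heb hw] at hz
  exact x8_RR_InR hw.le hz

/-- degrees different from `0`, `3` -/
theorem x8_exact (h1 : ST_E1) (hX1 : ST_X1) (hX2 : ST_X2) {N : ℕ} (hN : 0 < N) {b e : ℤ} (hbe : b < e)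
    (heb : e ≤ b + N) (q : ℕ) (hq : q + 1 ≠ 3) {w h : ℝ} (hw : 0 < w) (hw1 : w < 1 / (4 * N)) (hh : 0 < h)
    {α : ((Fin (q + 1) → ℂ) → ℂ) → ℂ} (hα : Fnl (q + 1) (US N (PI N b e ∅) (GI N b e) w h) α)
    (hc : CocX N 0 (q + 1) (PI N b e ∅) (GI N b e) w h α) : ExX N 0 (q + 1) (PI N b e ∅) (GI N b e) w h α := by
  obtain ⟨γ, hγ, H⟩ := x8_dec h1 hX1 hX2 hN hbe heb q hw hw1 hh hα hc
  refine ⟨γ, hγ, x8_SumX0.2 fun w1 k1 a1 a2 a3 F hF => ?_⟩
  rw [H w1 k1 a1 a2 a3 F hF]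
  have hsub : US N (PI N b e ∅) (GI N b e) w h ⊆ US N (PI N b e ∅) (GI N b e) w1 k1 :=
    US_mono le_rfl le_rfl a2.le a3.le
  obtain ⟨d1, d2, c3', _, _⟩ := x8_cond hN hbe heb hw1
  have K := (hX2 ((b : ℝ) / N) (yy N b) ((e : ℝ) / N) ((e : ℝ) / N) w h d1 d2 le_rfl c3' hw.le hh ∅ isOpen_empty
      (fun z => Iff.rfl) (fun z hz => absurd hz (Set.notMem_empty z))).1 (q + 1) F
  rw [Set.empty_union, ← x8_US hN hbe heb hw] at K
  have e1 := hα.ext' (K (hF.mono hsub)).1 (BO.zero _ _) (x8_Pi_zero (yy N b) (x8_inR hN hbe heb hw) q hq F)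
  rw [e1, hα.zero']
  ring

/-- the basic function of degree 3 -/
theorem x8_U0 (hX2 : ST_X2) {N : ℕ} (hN : 0 < N) {b e : ℤ} (hbe : b < e)
    (heb : e ≤ b + N) {w h : ℝ} (hw : 0 < w) (hw1 : w < 1 / (4 * N)) (hh : 0 < h) :
    BO 3 (US N (PI N b e ∅) (GI N b e) w h) (uw ((b : ℝ) / N) ((e : ℝ) / N) (yy N b) 0 (fun _ => 1)) ∧
      ∀ z ∈ PU 2 (US N (PI N b e ∅) (GI N b e) w h),
        dd 2 (uw ((b : ℝ) / N) ((e : ℝ) / N) (yy N b) 0 (fun _ => 1)) z = 0 := by
  obtain ⟨d1, d2, c3', _, _⟩ := x8_cond hN hbe heb hw1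
  obtain ⟨_, _, _, _, _, k6, _, _, k9, _, _, _⟩ :=
    hX2 ((b : ℝ) / N) (yy N b) ((e : ℝ) / N) ((e : ℝ) / N) w h d1 d2 le_rfl c3' hw.le hh ∅ isOpen_empty
      (fun z => Iff.rfl) (fun z hz => absurd hz (Set.notMem_empty z))
  rw [Set.empty_union, ← x8_US hN hbe heb hw] at k6 k9
  exact ⟨k6 0 _ (x8_BO0_const ∅), k9 _ (x8_BO0_const ∅)⟩

/-- degree `3` -/
theorem x8_three (h1 : ST_E1) (hX1 : ST_X1) (hX2 : ST_X2) {N : ℕ} (hN : 0 < N) {b e : ℤ} (hbe : b < e)
    (heb : e ≤ b + N) {w h : ℝ} (hw : 0 < w) (hw1 : w < 1 / (4 * N)) (hh : 0 < h)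
    {α : ((Fin 3 → ℂ) → ℂ) → ℂ} (hα : Fnl 3 (US N (PI N b e ∅) (GI N b e) w h) α)
    (hc : CocX N 0 3 (PI N b e ∅) (GI N b e) w h α) :
    ∃ γ, Fnl 2 (US N (PI N b e ∅) (GI N b e) w h) γ ∧ ∀ w1 k1 : ℝ, 0 < w1 → w1 < w → h < k1 →
      ∀ F, BO 3 (US N (PI N b e ∅) (GI N b e) w1 k1) F →
        α F = γ (dd 2 F) + c3 (yy N b) 0 F (fun i => i.elim0) *
          α (uw ((b : ℝ) / N) ((e : ℝ) / N) (yy N b) 0 (fun _ => 1)) := by
  obtain ⟨γ, hγ, H⟩ := x8_dec h1 hX1 hX2 hN hbe heb 2 hw hw1 hh hα hc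
  refine ⟨γ, hγ, fun w1 k1 a1 a2 a3 F hF => ?_⟩
  rw [H w1 k1 a1 a2 a3 F hF]
  have hsub : US N (PI N b e ∅) (GI N b e) w h ⊆ US N (PI N b e ∅) (GI N b e) w1 k1 :=
    US_mono le_rfl le_rfl a2.le a3.le
  obtain ⟨d1, d2, c3', _, _⟩ := x8_cond hN hbe heb hw1
  have K := (hX2 ((b : ℝ) / N) (yy N b) ((e : ℝ) / N) ((e : ℝ) / N) w h d1 d2 le_rfl c3' hw.le hh ∅ isOpen_empty
      (fun z => Iff.rfl) (fun z hz => absurd hz (Set.notMem_empty z))).1 3 F
  rw [Set.empty_union, ← x8_US hN hbe heb hw] at K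
  have hU0 := (x8_U0 hX2 hN hbe heb hw hw1 hh).1
  have e1 := hα.ext' (K (hF.mono hsub)).1 (hU0.smul _) (x8_Pi_three (yy N b) (x8_inR hN hbe heb hw) F)
  rw [e1, hα.smul _ _ hU0]

theorem x8_ExX0 {N : ℕ} {P G : Set ℤ} {w h : ℝ} {q : ℕ} {α : ((Fin q → ℂ) → ℂ) → ℂ}
    (H : ∀ w1 h1 : ℝ, 0 < w1 → w1 < w → h < h1 → ∀ F, BO q (US N P G w1 h1) F → α F = 0) : ExX N 0 q P G w h α :=
  ExX.of_SumX (x8_SumX0.2 H)

theorem x8_DB (h1 : ST_E1) (hX1 : ST_X1) (hX2 : ST_X2) : DB 0 := by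
  intro N n b e hN hb he heb
  have hbe : b < e := hb.trans_le (by exact_mod_cast he)
  constructor
  · intro hn0 hn3
    refine Loss.of fun w' h' w h a1 a2 a3 a4 a5 α hα hc => ?_
    obtain ⟨q, rfl⟩ : ∃ q, n = q + 1 := ⟨n - 1, by omega⟩
    have := x8_exact h1 hX1 hX2 hN hbe heb q (by omega) (a1.trans a2) a3 a4 hα hc
    exact this.mono le_rfl le_rfl le_rfl a2.le a5.le
  · refine Loss.of fun w' h' w h a1 a2 a3 a4 a5 α α' hα hc hα' hc' => ?_
    have hw : 0 < w := a1.trans a2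
    match n, α, α', hα, hc, hα', hc' with
    | 0, α, α', hα, _, hα', _ =>
      obtain ⟨c, c', hcc, e⟩ := x8_lin (α (fun _ => 1)) (α' (fun _ => 1))
      refine ⟨c, c', hcc, x8_ExX0 fun w1 k1 _ _ _ F _ => ?_⟩
      rw [x8_val0 hα F, x8_val0 hα' F]
      linear_combination (F fun i => i.elim0) * e
    | 3, α, α', hα, hc, hα', hc' =>
      obtain ⟨γ, hγ, H⟩ := x8_three h1 hX1 hX2 hN hbe heb hw a3 a4 hα hc
      obtain ⟨γ', hγ', H'⟩ := x8_three h1 hX1 hX2 hN hbe heb hw a3 a4 hα' hc'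
      obtain ⟨c, c', hcc, hE⟩ := x8_lin (α (uw ((b : ℝ) / N) ((e : ℝ) / N) (yy N b) 0 (fun _ => 1)))
        (α' (uw ((b : ℝ) / N) ((e : ℝ) / N) (yy N b) 0 (fun _ => 1)))
      refine ⟨c, c', hcc, ?_⟩
      have hEx : ExX N 0 3 (PI N b e ∅) (GI N b e) w h (fun F => c * α F + c' * α' F) := by
        refine ⟨fun F => c * γ F + c' * γ' F, (hγ.smulF c).addF (hγ'.smulF c'), x8_SumX0.2 fun w1 k1 b1 b2 b3 F hF => ?_⟩
        show c * α F + c' * α' F - (c * γ (dd 2 F) + c' * γ' (dd 2 F)) = 0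
        rw [H w1 k1 b1 b2 b3 F hF, H' w1 k1 b1 b2 b3 F hF]
        linear_combination (c3 (yy N b) 0 F fun i => i.elim0) * hE
      exact hEx.mono le_rfl le_rfl le_rfl a2.le a5.le
    | 1, α, α', hα, hc, _, _ =>
      refine ⟨1, 0, fun h' => one_ne_zero h'.1, ?_⟩
      have := (x8_exact h1 hX1 hX2 hN hbe heb 0 (by omega) hw a3 a4 hα hc).mono (le_refl 0) (le_refl _)
        (le_refl _) a2.le a5.le
      exact this.congr fun _ _ _ _ _ F _ => by ring
    | 2, α, α', hα, hc, _, _ =>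
      refine ⟨1, 0, fun h' => one_ne_zero h'.1, ?_⟩
      have := (x8_exact h1 hX1 hX2 hN hbe heb 1 (by omega) hw a3 a4 hα hc).mono (le_refl 0) (le_refl _)
        (le_refl _) a2.le a5.le
      exact this.congr fun _ _ _ _ _ F _ => by ring
    | (m + 4), α, α', hα, hc, _, _ =>
      refine ⟨1, 0, fun h' => one_ne_zero h'.1, ?_⟩
      have := (x8_exact h1 hX1 hX2 hN hbe heb (m + 3) (by omega) hw a3 a4 hα hc).mono (le_refl 0) (le_refl _)
        (le_refl _) a2.le a5.le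
      exact this.congr fun _ _ _ _ _ F _ => by ring

theorem x8_QIs (h1 : ST_E1) (hX1 : ST_X1) (hX2 : ST_X2) : QIs 0 := by
  intro N n b e' e hN hb he' hee heb
  have hbe' : b < e' := hb.trans_le (by exact_mod_cast he')
  have hbe : b < e := hbe'.trans_le hee
  have heb' : e' ≤ b + N := hee.trans heb
  refine Loss.of fun w' h' w h a1 a2 a3 a4 a5 α hα hc => ?_
  have hw : 0 < w := a1.trans a2
  have hex : ∀ q, n = q + 1 → q + 1 ≠ 3 → ∃ β, Fnl n (US N (PI N b e' ∅) (GI N b e') w' h') β ∧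
      CocX N 0 n (PI N b e' ∅) (GI N b e') w' h' β ∧
      ExX N 0 n (PI N b e ∅) (GI N b e) w' h' (fun F => α F - β F) := by
    rintro q rfl hq
    have := (x8_exact h1 hX1 hX2 hN hbe heb q hq hw a3 a4 hα hc).mono (le_refl 0) (le_refl _)
        (le_refl _) a2.le a5.le
    exact ⟨fun _ => 0, Fnl.zeroF _ _, SumX.zero _ _ _ _ _ _ _, this.congr fun _ _ _ _ _ F _ => by ring⟩
  match n, α, hα, hc, hex with
  | 0, α, hα, _, _ =>
    refine ⟨α, x8_Fnl0 hα, ?_, x8_ExX0 fun _ _ _ _ _ F _ => sub_self _⟩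
    refine x8_SumX0.2 fun w1 k1 _ _ _ F _ => ?_
    show α (dd 0 F) = 0
    rw [x8_dd0, hα.zero']
  | 1, _, _, _, hex => exact hex 0 rfl (by omega)
  | 2, _, _, _, hex => exact hex 1 rfl (by omega)
  | (m + 4), _, _, _, hex => exact hex (m + 3) rfl (by omega)
  | 3, α, hα, hc, _ =>
    obtain ⟨γ, hγ, H⟩ := x8_three h1 hX1 hX2 hN hbe heb hw a3 a4 hα hc
    set A := α (uw ((b : ℝ) / N) ((e : ℝ) / N) (yy N b) 0 (fun _ => 1)) with hA
    obtain ⟨d1, d2, d3, _, _⟩ := x8_cond hN hbe' heb' (a2.trans a3)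
    have hh' : 0 < h' := a4.trans a5
    have hX := hX2 ((b : ℝ) / N) (yy N b) ((e' : ℝ) / N) ((e' : ℝ) / N) w' h' d1 d2 le_rfl d3 a1.le hh' ∅ isOpen_empty
      (fun z => Iff.rfl) (fun z hz => absurd hz (Set.notMem_empty z))
    obtain ⟨_, _, _, _, _, _, _, _, _, _, k11, _⟩ := hX
    rw [Set.empty_union, ← x8_US hN hbe' heb' a1] at k11
    have hO := isOpen_US hN (PI N b e' ∅) (GI N b e') w' h'
    have hy : ((yy N b : ℝ) : ℂ) ∈ US N (PI N b e' ∅) (GI N b e') w' h' := by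
      rw [x8_US hN hbe' heb' a1]
      refine ⟨by simpa using hh', 0, ?_, ?_⟩
      · simpa using d1
      · simpa using d2
    have hlin : ∀ (c : ℂ) F G, BO 3 (US N (PI N b e' ∅) (GI N b e') w' h') F →
        BO 3 (US N (PI N b e' ∅) (GI N b e') w' h') G →
        c3 (yy N b) 0 (fun x => c * F x + G x) (fun i => i.elim0) =
          c * c3 (yy N b) 0 F (fun i => i.elim0) + c3 (yy N b) 0 G (fun i => i.elim0) :=
      fun c F G hF hG => x8_c3_lin (yy N b) hO hy c hF.hol hG.hol _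
    refine ⟨fun F => A * c3 (yy N b) 0 F (fun i => i.elim0), ?_, ?_, ?_⟩
    · refine ⟨fun F G hF hG => ?_, fun c F hF => ?_, ?_⟩
      · have := hlin 1 F G hF hG
        simp only [one_mul] at this
        show A * c3 (yy N b) 0 (fun z => F z + G z) _ = _
        rw [this]
        ring
      · have e0 := hlin 1 (fun _ => 0) (fun _ => 0) (BO.zero _ _) (BO.zero _ _)
        have e1 := hlin c F (fun _ => 0) hF (BO.zero _ _)
        simp only [mul_zero, add_zero, one_mul] at e0 e1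
        have e2 : c3 (yy N b) 0 (fun _ => 0) (fun i => i.elim0) = 0 := by
          have : c3 (yy N b) 0 (fun _ => 0) (fun i => i.elim0) + c3 (yy N b) 0 (fun _ => 0) (fun i => i.elim0)
            = c3 (yy N b) 0 (fun _ => 0) (fun i => i.elim0) := e0.symm
          simpa using this
        show A * c3 (yy N b) 0 (fun z => c * F z) _ = _
        rw [e1, e2]
        ring
      · obtain ⟨C, hC⟩ := k11 0
        refine ⟨‖A‖ * |C|, by positivity, fun F hF M hM hM0 => ?_⟩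
        have := hC F hF M hM (fun i => i.elim0) (fun i => i.elim0)
        rw [norm_mul, mul_assoc]
        refine mul_le_mul_of_nonneg_left (this.trans ?_) (norm_nonneg _)
        exact mul_le_mul_of_nonneg_right (le_abs_self _) hM0
    · refine x8_SumX0.2 fun w1 k1 b1 b2 b3 F hF => ?_
      obtain ⟨f1, f2, f3, _, _⟩ := x8_cond hN hbe' heb' (b2.trans (a2.trans a3))
      have hX' := hX2 ((b : ℝ) / N) (yy N b) ((e' : ℝ) / N) ((e' : ℝ) / N) w1 k1 f1 f2 le_rfl f3 b1.le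
        (hh'.trans b3) ∅ isOpen_empty (fun z => Iff.rfl) (fun z hz => absurd hz (Set.notMem_empty z))
      obtain ⟨_, _, _, _, _, _, _, _, _, _, _, k12⟩ := hX'
      rw [Set.empty_union, ← x8_US hN hbe' heb' b1] at k12
      show A * c3 (yy N b) 0 (dd 3 F) (fun i => i.elim0) = 0
      rw [k12 0 F hF (fun i => i.elim0) (fun i => i.elim0), x8_dd0]
      simp
    · have hEx : ExX N 0 3 (PI N b e ∅) (GI N b e) w h
          (fun F => α F - A * c3 (yy N b) 0 F (fun i => i.elim0)) := by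
        refine ⟨γ, hγ, x8_SumX0.2 fun w1 k1 b1 b2 b3 F hF => ?_⟩
        show α F - A * c3 (yy N b) 0 F (fun i => i.elim0) - γ (dd 2 F) = 0
        rw [H w1 k1 b1 b2 b3 F hF]
        ring
      exact hEx.mono le_rfl le_rfl le_rfl a2.le a5.le

theorem x8_QIi (h1 : ST_E1) (hX1 : ST_X1) (hX2 : ST_X2) : QIi 0 := by
  intro N n b e' e hN hb he' hee heb
  have hbe' : b < e' := hb.trans_le (by exact_mod_cast he')
  have hbe : b < e := hbe'.trans_le hee
  have heb' : e' ≤ b + N := hee.trans heb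
  refine Loss.of fun w' h' w h a1 a2 a3 a4 a5 β hβ hc hex => ?_
  have hw : 0 < w := a1.trans a2
  have hexq : ∀ q, n = q + 1 → q + 1 ≠ 3 → ExX N 0 n (PI N b e' ∅) (GI N b e') w' h' β := by
    rintro q rfl hq
    exact (x8_exact h1 hX1 hX2 hN hbe' heb' q hq hw a3 a4 hβ hc).mono (le_refl 0) (le_refl _)
        (le_refl _) a2.le a5.le
  match n, β, hβ, hc, hex, hexq with
  | 0, β, hβ, _, hex, _ =>
    refine x8_ExX0 fun w1 k1 b1 b2 b3 F hF => ?_
    exact (x8_SumX0.1 hex) (w / 2) (h + 1) (by linarith) (by linarith) (by linarith) F (x8_BO0 hF)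
  | 1, _, _, _, _, hexq => exact hexq 0 rfl (by omega)
  | 2, _, _, _, _, hexq => exact hexq 1 rfl (by omega)
  | (m + 4), _, _, _, _, hexq => exact hexq (m + 3) rfl (by omega)
  | 3, β, hβ, hc, hex, _ =>
    obtain ⟨γ', hγ', H⟩ := x8_three h1 hX1 hX2 hN hbe' heb' hw a3 a4 hβ hc
    obtain ⟨γ, hγ, hS⟩ := hex
    have hS' := x8_SumX0.1 hS
    have hfin : (∀ F, BO 3 (US N (PI N b e' ∅) (GI N b e') w h) F →
        c3 (yy N b) 0 F (fun i => i.elim0) * β (uw ((b : ℝ) / N) ((e' : ℝ) / N) (yy N b) 0 (fun _ => 1)) = 0) →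
        ExX N 0 3 (PI N b e' ∅) (GI N b e') w' h' β := by
      intro h0
      have hEx : ExX N 0 3 (PI N b e' ∅) (GI N b e') w h β := by
        refine ⟨γ', hγ', x8_SumX0.2 fun w1 k1 b1 b2 b3 F hF => ?_⟩
        rw [H w1 k1 b1 b2 b3 F hF, h0 F (hF.mono (US_mono le_rfl le_rfl b2.le b3.le))]
        ring
      exact hEx.mono le_rfl le_rfl le_rfl a2.le a5.le
    refine hfin fun F hF => ?_
    by_cases hcF : c3 (yy N b) 0 F (fun i => i.elim0) = 0
    · rw [hcF, zero_mul]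
    · -- the two basic functions agree
      obtain ⟨f1, f2, f3, _, _⟩ := x8_cond hN hbe' heb' a3
      obtain ⟨_, _, g3, _, _⟩ := x8_cond hN hbe heb a3
      have hee' : (e' : ℝ) / N ≤ (e : ℝ) / N := by
        have hN' : (0 : ℝ) < N := Nat.cast_pos.2 hN
        rw [div_le_div_iff_of_pos_right hN']
        exact_mod_cast hee
      have hX := (hX2 ((b : ℝ) / N) (yy N b) ((e' : ℝ) / N) ((e : ℝ) / N) w h f1 f2 hee' g3 hw.le a4 ∅ isOpen_empty
        (fun z => Iff.rfl) (fun z hz => absurd hz (Set.notMem_empty z))).1 3 F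
      rw [Set.empty_union, Set.empty_union, ← x8_US hN hbe' heb' hw, ← x8_US hN hbe heb hw] at hX
      have hsub : US N (PI N b e' ∅) (GI N b e') w h ⊆ US N (PI N b e ∅) (GI N b e) w h := by
        rw [x8_US hN hbe' heb' hw, x8_US hN hbe heb hw]
        rintro z ⟨h1, k, h2, h3⟩
        exact ⟨h1, k, h2, by linarith⟩
      have hinR := x8_inR hN hbe heb (h := h) hw
      have hinR' := x8_inR hN hbe' heb' (h := h) hw
      have hU : ∀ z ∈ PU 3 (US N (PI N b e' ∅) (GI N b e') w h),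
          uw ((b : ℝ) / N) ((e' : ℝ) / N) (yy N b) 0 (fun _ => 1) z =
            uw ((b : ℝ) / N) ((e : ℝ) / N) (yy N b) 0 (fun _ => 1) z := by
        intro z hz
        have k1 := (hX hF).2 z hz
        rw [x8_Pi_three (yy N b) hinR' F z hz, x8_Pi_three (yy N b) hinR F z (PU_mono hsub hz)] at k1
        exact (mul_left_cancel₀ hcF k1).symm
      have hU1 := (x8_U0 hX2 hN hbe' heb' hw a3 a4).1
      have hU2 := (x8_U0 hX2 hN hbe heb hw a3 a4).1.mono hsub
      have e1 := hβ.ext' hU1 hU2 hU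
      -- the value on the basic function of the larger interval
      obtain ⟨hU3, hU4⟩ := x8_U0 hX2 hN hbe heb (w := w / 2) (h := h + 1) (by linarith) (by linarith) (by linarith)
      have e2 := hS' (w / 2) (h + 1) (by linarith) (by linarith) (by linarith) _ hU3
      have hdd : BO 2 (US N (PI N b e ∅) (GI N b e) w h)
          (dd 2 (uw ((b : ℝ) / N) ((e : ℝ) / N) (yy N b) 0 (fun _ => 1))) :=
        dd_BO h1 hN (Shape_PI N b e ∅) (by linarith) (by linarith) (by linarith) hU3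
      have e3 := hγ.ext' hdd (BO.zero _ _) fun z hz =>
        hU4 z (PU_mono (US_mono le_rfl le_rfl (by linarith) (by linarith)) hz)
      rw [e3, hγ.zero', sub_zero] at e2
      rw [e1, e2, mul_zero]

theorem st_X8 (h1 : ST_E1) (hX1 : ST_X1) (hX2 : ST_X2) : ST_X8 :=
  ⟨x8_DB h1 hX1 hX2, x8_QIs h1 hX1 hX2, x8_QIi h1 hX1 hX2⟩

end

end Pool.Agent.Helper67.DO
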